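import Pool.Agent.H14.MssD

set_option autoImplicit false

namespace Pool.Agent.Results.MP_3489b6_co.Ramanujan

open Pool.Agent.H14.Mag

theorem result :
    ∀ (d : ℕ), 3 ≤ d → 0 < (d : ℝ) - 2 * Real.sqrt (d - 1) ∧
      ∀ (V : Type) [Fintype V] [DecidableEq V] [Nonempty V] (G : SimpleGraph V)
        [DecidableRel G.Adj], (∀ v, d ≤ G.degree v) → (d : ℝ) - 2 * Real.sqrt (d - 1) ≤ nu G := by
  intro d hd
  refine ⟨?_, fun V _ _ _ G _ h => Pool.Agent.H14.Mss.ramanujan G d hd h⟩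
  have hd' : (3 : ℝ) ≤ d := by exact_mod_cast hd
  have : Real.sqrt ((d : ℝ) - 1) < d / 2 := by
    rw [Real.sqrt_lt' (by linarith)]
    nlinarith
  linarith

end Pool.Agent.Results.MP_3489b6_co.Ramanujan
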